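import Pool.Agent.Helper30.U.Defs2
import Pool.Agent.Helper8.DI.B0

/-!
# MP_506470_co : module U-A1 (Ramsey for strong amalgamation classes)
-/

namespace SetHom
namespace Un

variable {V : Type} {G : SimpleGraph V}

section A1

variable {P : ∀ α : Type, SimpleGraph α → Set α → Prop}

private theorem ext_pt (h : SAC P) {n : ℕ} {A : SimpleGraph (Fin n)} (hA : P (Fin n) A Set.univ)
    (S : Finset (Fin n)) : ∃ A' : SimpleGraph (Option (Fin n)),
      (∀ x y, A'.Adj (some x) (some y) ↔ A.Adj x y) ∧
      P (Option (Fin n)) A' {x | ∀ y, x = some y → y ∈ S} := by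
  classical
  induction S using Finset.induction_on with
  | empty =>
    let A0 : SimpleGraph (Option (Fin n)) := SimpleGraph.map
      (⟨some, Option.some_injective _⟩ : Fin n ↪ Option (Fin n)) A
    refine ⟨A0, ?_, ?_⟩
    · intro x y
      exact SimpleGraph.map_adj_apply (f := (⟨some, Option.some_injective _⟩ : Fin n ↪ Option (Fin n)))
    · refine h.comap Unit _ ⊥ Set.univ _ _ (fun _ => ()) h.pt (fun _ _ => Set.mem_univ _) ?_ ?_
      · intro x hx y hy _
        rcases x with _ | x
        · rcases y with _ | y
          · rfl
          · exact absurd (hy y rfl) (by simp)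
        · exact absurd (hx x rfl) (by simp)
      · intro x hx y hy
        rcases x with _ | x
        · rcases y with _ | y
          · constructor
            · intro h1
              exact absurd h1 (SimpleGraph.irrefl _)
            · intro h1
              exact absurd h1 (SimpleGraph.irrefl _)
          · exact absurd (hy y rfl) (by simp)
        · exact absurd (hx x rfl) (by simp)
  | insert b S hb ih =>
    obtain ⟨A', h1, h2⟩ := ih
    let B : SimpleGraph (Option (Fin n)) := A' ⊔ SimpleGraph.edge none (some b)
    let B' : SimpleGraph (Option (Fin n)) := A' \ SimpleGraph.edge none (some b)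
    have hB : ∀ x y, B.Adj x y ↔ A'.Adj x y ∨ (x = none ∧ y = some b) ∨ (x = some b ∧ y = none) := by
      intro x y
      simp only [B, SimpleGraph.sup_adj, SimpleGraph.edge_adj]
      constructor
      · rintro (h3 | ⟨h3, h4⟩)
        · exact Or.inl h3
        · right
          tauto
      · rintro (h3 | ⟨rfl, rfl⟩ | ⟨rfl, rfl⟩)
        · exact Or.inl h3
        · right
          simp
        · right
          simp
    have hB' : ∀ x y, B'.Adj x y ↔ A'.Adj x y ∧ ¬ ((x = none ∧ y = some b) ∨
        (x = some b ∧ y = none)) := by
      intro x y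
      simp only [B', SimpleGraph.sdiff_adj, SimpleGraph.edge_adj]
      constructor
      · rintro ⟨h3, h4⟩
        refine ⟨h3, fun h5 => h4 ⟨?_, ?_⟩⟩
        · tauto
        · exact h3.ne
      · rintro ⟨h3, h4⟩
        refine ⟨h3, fun h5 => h4 ?_⟩
        tauto
    have key := h.ap (Option (Fin n)) B B' {x | ∀ y, x = some y → y ∈ insert b S} none (some b)
      (by intro y hy; simp at hy) (by
        intro y hy
        rw [← Option.some.inj hy]
        exact Finset.mem_insert_self _ _) (by simp) (by
        intro x y h3 h4
        rw [hB, hB']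
        have h5 : ¬ ((x = none ∧ y = some b) ∨ (x = some b ∧ y = none)) := by
          rintro (h6 | h6)
          · exact h3 h6
          · exact h4 h6
        tauto) ((hB _ _).2 (Or.inr (Or.inl ⟨rfl, rfl⟩))) (fun h3 => ((hB' _ _).1 h3).2
          (Or.inl ⟨rfl, rfl⟩)) ?_ ?_
    · rcases key with key | key
      · refine ⟨B, ?_, key⟩
        intro x y
        rw [hB, h1]
        simp
      · refine ⟨B', ?_, key⟩
        intro x y
        rw [hB', h1]
        simp
    · -- T minus none
      refine h.comap (Fin n) _ A Set.univ _ _ (fun x => x.getD b) hA (fun _ _ => Set.mem_univ _)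
        ?_ ?_
      · intro x hx y hy hxy
        rcases x with _ | x
        · exact absurd rfl hx.2
        · rcases y with _ | y
          · exact absurd rfl hy.2
          · simpa using hxy
      · intro x hx y hy
        rcases x with _ | x
        · exact absurd rfl hx.2
        · rcases y with _ | y
          · exact absurd rfl hy.2
          · rw [hB, h1]
            simp
    · refine h.comap (Option (Fin n)) _ A' _ _ _ id h2 ?_ (fun _ _ _ _ e => e) ?_
      · intro x hx y hy
        have h3 := hx.1 y hy
        rcases Finset.mem_insert.1 h3 with h4 | h4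
        · refine absurd ?_ hx.2
          have h5 : x = some y := hy
          rw [h5, h4]
          rfl
        · exact h4
      · intro x hx y hy
        rw [hB]
        have h3 : x ≠ some b := fun e => hx.2 e
        have h4 : y ≠ some b := fun e => hy.2 e
        simp only [id]
        tauto

private theorem exists_graph (h : SAC P) (n : ℕ) :
    ∃ A : SimpleGraph (Fin n), P (Fin n) A Set.univ := by
  classical
  induction n with
  | zero =>
    refine ⟨⊥, h.comap Unit _ ⊥ Set.univ _ _ (fun _ => ()) h.pt (fun _ _ => Set.mem_univ _) ?_ ?_⟩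
    · intro x
      exact x.elim0
    · intro x
      exact x.elim0
  | succ n ih =>
    obtain ⟨A, hA⟩ := ih
    obtain ⟨A', -, h2⟩ := ext_pt h hA Finset.univ
    let e : Fin (n + 1) ≃ Option (Fin n) := finSuccEquiv n
    refine ⟨A'.comap e, h.comap _ _ A' _ _ _ e h2 ?_ (e.injective.injOn) ?_⟩
    · intro x _ y _
      exact Finset.mem_univ _
    · intro x _ y _
      exact Iff.rfl

private theorem one_of (h : SAC P) (n : ℕ) : InCl P n ∨ InInd P n := by
  classical
  obtain ⟨R, hR⟩ := ramsey_fin n
  obtain ⟨A, hA⟩ := exists_graph h R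
  obtain ⟨f, hf, hfR, hc⟩ := hR (fun i j => ∃ (hi : i < R) (hj : j < R), A.Adj ⟨i, hi⟩ ⟨j, hj⟩)
  -- general transport
  have key : ∀ (α : Type) (B : SimpleGraph α) (T : Set α), T.Finite → T.ncard ≤ n →
      (∀ x ∈ T, ∀ y ∈ T, ∀ i j : Fin n, i ≠ j → x ≠ y →
        (B.Adj x y ↔ A.Adj ⟨f i, hfR i⟩ ⟨f j, hfR j⟩)) → P α B T := by
    intro α B T hT hcard hB
    rcases T.eq_empty_or_nonempty with rfl | ⟨t, ht⟩
    · refine h.comap Unit _ ⊥ Set.univ _ _ (fun _ => ()) h.pt (fun _ _ => Set.mem_univ _) ?_ ?_
      · intro x hx
        exact absurd hx (by simp)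
      · intro x hx
        exact absurd hx (by simp)
    · have hfin : Finite T := hT
      have : Fintype T := Fintype.ofFinite T
      have hc1 : Fintype.card T ≤ n := by
        rw [← Nat.card_eq_fintype_card]
        exact hcard
      have hemb : Nonempty (T ↪ Fin n) := by
        apply Function.Embedding.nonempty_of_card_le
        simpa using hc1
      obtain ⟨e⟩ := hemb
      let g : α → Fin R := fun x => if hx : x ∈ T then ⟨f (e ⟨x, hx⟩), hfR _⟩ else
        ⟨f (e ⟨t, ht⟩), hfR _⟩
      have hg : ∀ x (hx : x ∈ T), g x = ⟨f (e ⟨x, hx⟩), hfR _⟩ := fun x hx => dif_pos hx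
      refine h.comap _ _ A Set.univ _ _ g hA (fun _ _ => Set.mem_univ _) ?_ ?_
      · intro x hx y hy hxy
        rw [hg x hx, hg y hy] at hxy
        have h1 : f (e ⟨x, hx⟩) = f (e ⟨y, hy⟩) := by
          simpa using hxy
        have h2 := e.injective (hf.injective h1)
        simpa using h2
      · intro x hx y hy
        rw [hg x hx, hg y hy]
        by_cases hxy : x = y
        · subst hxy
          simp
        · apply hB x hx y hy _ _ _ hxy
          intro h1
          have := e.injective h1
          apply hxy
          simpa using this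
  rcases hc with hc | hc
  · left
    intro α B T hT hcard hB
    refine key α B T hT hcard (fun x hx y hy i j hij hxy => ?_)
    refine ⟨fun _ => ?_, fun _ => hB x hx y hy hxy⟩
    rcases lt_or_gt_of_ne hij with h1 | h1
    · obtain ⟨_, _, h2⟩ := hc i j h1
      exact h2
    · obtain ⟨_, _, h2⟩ := hc j i h1
      exact h2.symm
  · right
    intro α B T hT hcard hB
    refine key α B T hT hcard (fun x hx y hy i j hij hxy => ?_)
    refine ⟨fun h1 => absurd h1 (hB x hx y hy), fun h1 => ?_⟩
    exfalso
    rcases lt_or_gt_of_ne hij with h2 | h2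
    · exact hc i j h2 ⟨_, _, h1⟩
    · exact hc j i h2 ⟨_, _, h1.symm⟩

end A1

/-- module U-A1 (Ramsey). -/
theorem sac_ramsey {P : ∀ α : Type, SimpleGraph α → Set α → Prop} (h : SAC P) :
    (∀ n, InCl P n) ∨ ∀ n, InInd P n := by
  by_cases h1 : ∀ n, InCl P n
  · exact Or.inl h1
  · right
    push Not at h1
    obtain ⟨n0, hn0⟩ := h1
    intro n
    rcases one_of h (max n n0) with h2 | h2
    · exfalso
      apply hn0
      intro α A T hT hc hA
      exact h2 α A T hT (hc.trans (le_max_right _ _)) hA
    · intro α A T hT hc hA
      exact h2 α A T hT (hc.trans (le_max_left _ _)) hA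

end Un
end SetHom
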